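import Pool.Agent.X189.ST.Tree

set_option autoImplicit false
set_option linter.unusedSectionVars false

/-!
A continuum of finite length contains, up to an arbitrarily small error, a tree through any
finitely many of its points.
-/

namespace Pool.Agent.X189.ST

open MeasureTheory Set
open scoped ENNReal NNReal

variable {ι : Type} [DecidableEq ι] [Fintype ι]
variable {E : Type} [NormedAddCommGroup E] [InnerProductSpace ℝ E] [MeasurableSpace E]
  [BorelSpace E]

theorem exists_tree [Nonempty ι] {C : Set E} (hC : IsCompact C) (hconn : IsConnected C) {ℓ : ℝ}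
    (hℓ : Measure.hausdorffMeasure 1 C < ENNReal.ofReal ℓ) (X : ι → E) (hX : ∀ i, X i ∈ C) :
    ∃ z ν, RT X Finset.univ z ν ∧ tot ν < ℓ := by
  classical
  obtain ⟨ℓ', hℓ'0, h1, h2⟩ := ENNReal.lt_iff_exists_real_btwn.1 hℓ
  have hll : ℓ' < ℓ := by
    by_contra hc
    push Not at hc
    exact absurd h2 (not_lt.2 (ENNReal.ofReal_le_ofReal hc))
  set η : ℝ := ℓ - ℓ' with hη
  have hη0 : 0 < η := by linarith
  set N : ℝ := (Fintype.card ι : ℝ) with hN
  have hN1 : 1 ≤ N := by
    rw [hN]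
    exact_mod_cast Fintype.card_pos
  set δ : ℝ := η / (4 * N) with hδ
  have hδ0 : 0 < δ := by positivity
  have hδN : δ * N = η / 4 := by rw [hδ]; field_simp
  -- the cover
  rw [Measure.hausdorffMeasure_apply] at h1
  have h3 : (⨅ (t : ℕ → Set E) (_ : C ⊆ ⋃ n, t n) (_ : ∀ n, Metric.ediam (t n) ≤
      ((δ / 2).toNNReal : ℝ≥0∞)), ∑' n, ⨆ _ : (t n).Nonempty, Metric.ediam (t n) ^ (1:ℝ)) <
      ENNReal.ofReal ℓ' := by
    refine lt_of_le_of_lt ?_ h1
    refine le_iSup₂_of_le ((δ / 2).toNNReal : ℝ≥0∞) ?_ le_rfl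
    rw [ENNReal.coe_pos, Real.toNNReal_pos]
    positivity
  simp only [iInf_lt_iff] at h3
  obtain ⟨t, ht1, ht2, ht3⟩ := h3
  have ht4 : ∑' n, Metric.ediam (t n) < ENNReal.ofReal ℓ' := by
    refine lt_of_le_of_lt (ENNReal.tsum_le_tsum fun n => ?_) ht3
    rcases (t n).eq_empty_or_nonempty with h | h
    · rw [h]
      simp
    · refine le_iSup_of_le h ?_
      rw [ENNReal.rpow_one]
  have hfin : ∀ n, Metric.ediam (t n) ≠ ⊤ := fun n =>
    ne_top_of_le_ne_top ENNReal.coe_ne_top (ht2 n)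
  set d : ℕ → ℝ := fun n => (Metric.ediam (t n)).toReal with hd
  have hdδ : ∀ n, d n ≤ δ / 2 := by
    intro n
    have := ENNReal.toReal_mono ENNReal.coe_ne_top (ht2 n)
    rw [ENNReal.coe_toReal, Real.coe_toNNReal _ (by positivity)] at this
    exact this
  have hd0 : ∀ n, 0 ≤ d n := fun n => ENNReal.toReal_nonneg
  have hdsum : ∀ K : Finset ℕ, ∑ n ∈ K, d n ≤ ℓ' := by
    intro K
    have e : ∑ n ∈ K, d n = (∑ n ∈ K, Metric.ediam (t n)).toReal := by
      rw [ENNReal.toReal_sum fun n _ => hfin n]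
    rw [e]
    refine ENNReal.toReal_le_of_le_ofReal hℓ'0 ?_
    exact (ENNReal.sum_le_tsum K).trans ht4.le
  -- the thickenings
  set ε : ℕ → ℝ := fun n => δ / 8 * (1 / 2) ^ n with hε
  have hε0 : ∀ n, 0 < ε n := fun n => by positivity
  have hε1 : ∀ n, ε n ≤ δ / 8 := by
    intro n
    have : ((1:ℝ) / 2) ^ n ≤ 1 := pow_le_one₀ (by norm_num) (by norm_num)
    have := mul_le_mul_of_nonneg_left this (by positivity : 0 ≤ δ / 8)
    simpa [hε] using this
  have hεsum : ∀ K : Finset ℕ, ∑ n ∈ K, ε n ≤ δ / 4 := by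
    intro K
    rw [hε, ← Finset.mul_sum]
    have : ∑ n ∈ K, ((1:ℝ) / 2) ^ n ≤ 2 := by
      have hs := summable_geometric_two
      have := hs.sum_le_tsum K (fun n _ => by positivity)
      rwa [tsum_geometric_two] at this
    nlinarith
  set V : ℕ → Set E := fun n => Metric.thickening (ε n) (t n) with hVdef
  have hVo : ∀ n, IsOpen (V n) := fun n => Metric.isOpen_thickening
  set w : ℕ → ℝ := fun n => d n + 2 * ε n with hw
  have hw0 : ∀ n, 0 ≤ w n := fun n => by
    have := hd0 n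
    have := (hε0 n).le
    simp only [hw]
    linarith
  have hwδ : ∀ n, w n ≤ δ := fun n => by
    have := hdδ n
    have := hε1 n
    simp only [hw]
    linarith
  have hVd : ∀ n, ∀ x ∈ V n, ∀ y ∈ V n, dist x y ≤ w n := by
    intro n x hx y hy
    rw [hVdef] at hx hy
    simp only [Metric.mem_thickening_iff] at hx hy
    obtain ⟨x', hx', hxd⟩ := hx
    obtain ⟨y', hy', hyd⟩ := hy
    have h4 : dist x' y' ≤ d n := by
      have := Metric.edist_le_ediam_of_mem hx' hy'
      have := ENNReal.toReal_mono (hfin n) this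
      rwa [edist_dist, ENNReal.toReal_ofReal dist_nonneg] at this
    calc dist x y ≤ dist x x' + dist x' y' + dist y' y := dist_triangle4 _ _ _ _
      _ ≤ ε n + d n + ε n := by
        rw [dist_comm y' y]
        gcongr
      _ = w n := by simp only [hw]; ring
  have hVt : ∀ n, t n ⊆ V n := fun n => Metric.self_subset_thickening (hε0 n) _
  obtain ⟨K0, hK0⟩ := hC.elim_finite_subcover V hVo (ht1.trans (iUnion_mono hVt))
  set U : ℕ → Set E := fun n => V n ∩ C with hU
  set K := K0.filter (fun n => (U n).Nonempty) with hK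
  have hcov : ∀ x ∈ C, ∃ n ∈ K, x ∈ V n := by
    intro x hx
    obtain ⟨n, hn, hxn⟩ := mem_iUnion₂.1 (hK0 hx)
    exact ⟨n, by rw [hK, Finset.mem_filter]; exact ⟨hn, x, hxn, hx⟩, hxn⟩
  have hKne : ∀ n ∈ K, (U n).Nonempty := fun n hn => by
    rw [hK, Finset.mem_filter] at hn
    exact hn.2
  have hchain : ∀ m : ℕ, 1 ≤ m → m ≤ K.card → ∃ L ⊆ K, Chain U L ∧ L.card = m := by
    intro m
    induction m with
    | zero => intro h; omega
    | succ m ih =>
      intro _ hm
      rcases Nat.eq_zero_or_pos m with h0 | h0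
      · subst h0
        obtain ⟨x, hx⟩ := hconn.nonempty
        obtain ⟨n, hn, _⟩ := hcov x hx
        exact ⟨{n}, by simpa using hn, Chain.one n (hKne n hn), by simp⟩
      · obtain ⟨L, hL, hLc, hLm⟩ := ih h0 (by omega)
        have hss : L ⊂ K := by
          refine Finset.ssubset_iff_subset_ne.2 ⟨hL, fun h => ?_⟩
          rw [h] at hLm
          omega
        obtain ⟨n1, hn1K, hn1L⟩ := Finset.exists_of_ssubset hss
        obtain ⟨n0, hn0⟩ : L.Nonempty := by
          rw [← Finset.card_pos]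
          omega
        have hou : IsOpen (⋃ n ∈ L, V n) := isOpen_biUnion fun n _ => hVo n
        have hov : IsOpen (⋃ n ∈ K \ L, V n) := isOpen_biUnion fun n _ => hVo n
        obtain ⟨x, hxC, hxu, hxv⟩ := hconn.isPreconnected _ _ hou hov (by
          intro x hx
          obtain ⟨n, hn, hxn⟩ := hcov x hx
          by_cases hnL : n ∈ L
          · exact Or.inl (mem_iUnion₂.2 ⟨n, hnL, hxn⟩)
          · exact Or.inr (mem_iUnion₂.2 ⟨n, Finset.mem_sdiff.2 ⟨hn, hnL⟩, hxn⟩)) (by
          obtain ⟨x, hx⟩ := hKne n0 (hL hn0)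
          exact ⟨x, hx.2, mem_iUnion₂.2 ⟨n0, hn0, hx.1⟩⟩) (by
          obtain ⟨x, hx⟩ := hKne n1 hn1K
          exact ⟨x, hx.2, mem_iUnion₂.2 ⟨n1, Finset.mem_sdiff.2 ⟨hn1K, hn1L⟩, hx.1⟩⟩)
        obtain ⟨l, hl, hxl⟩ := mem_iUnion₂.1 hxu
        obtain ⟨k, hk, hxk⟩ := mem_iUnion₂.1 hxv
        obtain ⟨hkK, hkL⟩ := Finset.mem_sdiff.1 hk
        refine ⟨insert k L, ?_, Chain.add hLc hl hkL ⟨x, ⟨hxk, hxC⟩, hxl, hxC⟩, ?_⟩
        · intro j hj
          rcases Finset.mem_insert.1 hj with h | h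
          · rw [h]; exact hkK
          · exact hL h
        · rw [Finset.card_insert_of_notMem hkL, hLm]
  have hKpos : 1 ≤ K.card := by
    obtain ⟨x, hx⟩ := hconn.nonempty
    obtain ⟨n, hn, _⟩ := hcov x hx
    exact Finset.card_pos.2 ⟨n, hn⟩
  obtain ⟨L, hL, hLc, hLm⟩ := hchain K.card hKpos le_rfl
  have hLK : L = K := Finset.eq_of_subset_of_card_le hL hLm.ge
  rw [hLK] at hLc
  -- the labels
  choose nn hnnK hnnV using fun i => hcov (X i) (hX i)
  set s : ℕ → Finset ι := fun k => Finset.univ.filter (fun i => nn i = k) with hs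
  have hmem : ∀ i k, i ∈ s k ↔ nn i = k := fun i k => by simp [hs]
  have hbU : K.biUnion s = Finset.univ := by
    ext i
    simp only [Finset.mem_biUnion, Finset.mem_univ, iff_true]
    exact ⟨nn i, hnnK i, (hmem _ _).2 rfl⟩
  obtain ⟨z, ν, r1, r2⟩ := contract (X := X) (V := U) (w := w) (δ := δ) hw0 hwδ
    (fun k x hx y hy => hVd k x hx.1 y hy.1) hLc s w (fun _ _ => le_rfl)
    (by
      intro k _ l _ hkl
      rw [Finset.disjoint_left]
      intro i hi hi'
      exact hkl (((hmem i k).1 hi).symm.trans ((hmem i l).1 hi')))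
    (by
      intro k _ hne z hz
      obtain ⟨ν, a1, a2⟩ := star (X := X) (w := w k) (z := z) (s k) hne (by
        intro i hi
        have h5 := (hmem i k).1 hi
        refine hVd k _ ?_ _ hz.1
        rw [← h5]
        exact hnnV i)
      refine ⟨ν, a1, a2.trans ?_⟩
      have h6 : (1:ℝ) ≤ (s k).card := by exact_mod_cast Finset.card_pos.2 hne
      have h7 := hwδ k
      nlinarith)
    (by
      rw [hbU]
      exact Finset.univ_nonempty)
  rw [hbU] at r1 r2
  refine ⟨z, ν, r1, lt_of_le_of_lt r2 ?_⟩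
  have h8 : ∑ k ∈ K, w k = ∑ k ∈ K, d k + 2 * ∑ k ∈ K, ε k := by
    simp only [hw]
    rw [Finset.sum_add_distrib, ← Finset.mul_sum]
  have h9 : ((Finset.univ : Finset ι).card : ℝ) = N := by
    rw [Finset.card_univ]
  rw [h8, h9]
  have h10 := hdsum K
  have h11 := hεsum K
  have h12 : δ ≤ η / 4 := by
    rw [← hδN]
    nlinarith
  have h13 : δ * (N - 1) ≤ η / 4 := by
    rw [← hδN]
    nlinarith
  linarith

end Pool.Agent.X189.ST
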