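import Pool.Agent.X189.ST.Comb
import Pool.Agent.X189.ST.Cover

set_option autoImplicit false

/-!
The two Steiner trees.
-/

namespace Pool.Agent.X189.ST

open MeasureTheory Set
open scoped ENNReal

/-- Steiner points of the horizontal tree -/
noncomputable def hS (h : Bool) : Pl := !₂[sg h * (√3 - 1), 0]
/-- Steiner points of the vertical tree -/
noncomputable def vS (v : Bool) : Pl := !₂[0, sg v * (√3 - 1)]
/-- whisker tips -/
noncomputable def wh (h v : Bool) : Pl := ctr (h, v, false)
/-- corners -/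
noncomputable def co (h v : Bool) : Pl := ctr (h, v, true)

@[simp] theorem hS0 (h : Bool) : hS h 0 = sg h * (√3 - 1) := by simp [hS]
@[simp] theorem hS1 (h : Bool) : hS h 1 = 0 := by simp [hS]
@[simp] theorem vS0 (h : Bool) : vS h 0 = 0 := by simp [vS]
@[simp] theorem vS1 (h : Bool) : vS h 1 = sg h * (√3 - 1) := by simp [vS]
@[simp] theorem wh0 (h v : Bool) : wh h v 0 = sg h * (√3 + 1 / 100) := by simp [wh, ctr]
@[simp] theorem wh1 (h v : Bool) : wh h v 1 = sg v * (√3 * (1 + 1 / 100)) := by simp [wh, ctr]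
@[simp] theorem co0 (h v : Bool) : co h v 0 = sg h * √3 := by simp [co, ctr]
@[simp] theorem co1 (h v : Bool) : co h v 1 = sg v * √3 := by simp [co, ctr]

theorem pl_ext {x y : Pl} (h0 : x 0 = y 0) (h1 : x 1 = y 1) : x = y := by
  ext i
  fin_cases i
  · exact h0
  · exact h1

theorem pl_dist {x y : Pl} {c : ℝ} (hc : 0 ≤ c) (h : (x 0 - y 0) ^ 2 + (x 1 - y 1) ^ 2 = c ^ 2) :
    dist x y = c := by
  rw [EuclideanSpace.dist_eq, Fin.sum_univ_two, Real.dist_eq, Real.dist_eq, sq_abs, sq_abs, h,
    Real.sqrt_sq hc]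

/-- the segments of the horizontal tree -/
noncomputable def leg (h v : Bool) : Set Pl := segment ℝ (wh h v) (hS h)
/-- the arms of the vertical tree -/
noncomputable def arm (h v : Bool) : Set Pl :=
  segment ℝ (wh h v) (co h v) ∪ segment ℝ (co h v) (vS v)

/-- the horizontal tree -/
noncomputable def SS : Set Pl :=
  segment ℝ (hS false) (hS true) ∪ leg false false ∪ leg false true ∪ leg true false ∪
    leg true true
/-- the vertical tree -/
noncomputable def TT : Set Pl :=
  segment ℝ (vS false) (vS true) ∪ arm false false ∪ arm false true ∪ arm true false ∪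
    arm true true

theorem seg_compact (x y : Pl) : IsCompact (segment ℝ x y) := by
  rw [segment_eq_image_lineMap]
  exact isCompact_Icc.image AffineMap.lineMap_continuous

theorem seg_conn (x y : Pl) : IsConnected (segment ℝ x y) :=
  ⟨⟨x, left_mem_segment ℝ x y⟩, (convex_segment x y).isPreconnected⟩

theorem leg_sub (h v : Bool) : leg h v ⊆ SS := by
  intro x hx
  cases h <;> cases v
  · exact Or.inl (Or.inl (Or.inl (Or.inr hx)))
  · exact Or.inl (Or.inl (Or.inr hx))
  · exact Or.inl (Or.inr hx)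
  · exact Or.inr hx

theorem arm_sub (h v : Bool) : arm h v ⊆ TT := by
  intro x hx
  cases h <;> cases v
  · exact Or.inl (Or.inl (Or.inl (Or.inr hx)))
  · exact Or.inl (Or.inl (Or.inr hx))
  · exact Or.inl (Or.inr hx)
  · exact Or.inr hx

theorem arm_compact (h v : Bool) : IsCompact (arm h v) :=
  (seg_compact _ _).union (seg_compact _ _)

theorem arm_conn (h v : Bool) : IsConnected (arm h v) :=
  (seg_conn _ _).union ⟨co h v, right_mem_segment ℝ _ _, left_mem_segment ℝ _ _⟩ (seg_conn _ _)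

theorem SS_compact : IsCompact SS :=
  ((((seg_compact _ _).union (seg_compact _ _)).union (seg_compact _ _)).union
    (seg_compact _ _)).union (seg_compact _ _)

theorem TT_compact : IsCompact TT :=
  ((((seg_compact _ _).union (arm_compact _ _)).union (arm_compact _ _)).union
    (arm_compact _ _)).union (arm_compact _ _)

theorem SS_conn : IsConnected SS := by
  have f : hS false ∈ segment ℝ (hS false) (hS true) := left_mem_segment ℝ _ _
  have t : hS true ∈ segment ℝ (hS false) (hS true) := right_mem_segment ℝ _ _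
  have g : ∀ h v, hS h ∈ leg h v := fun h v => right_mem_segment ℝ _ _
  refine IsConnected.union ⟨hS true, Or.inl (Or.inl (Or.inl t)), g true true⟩ ?_ (seg_conn _ _)
  refine IsConnected.union ⟨hS true, Or.inl (Or.inl t), g true false⟩ ?_ (seg_conn _ _)
  refine IsConnected.union ⟨hS false, Or.inl f, g false true⟩ ?_ (seg_conn _ _)
  exact IsConnected.union ⟨hS false, f, g false false⟩ (seg_conn _ _) (seg_conn _ _)

theorem TT_conn : IsConnected TT := by
  have f : vS false ∈ segment ℝ (vS false) (vS true) := left_mem_segment ℝ _ _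
  have t : vS true ∈ segment ℝ (vS false) (vS true) := right_mem_segment ℝ _ _
  have g : ∀ h v, vS v ∈ arm h v := fun h v => Or.inr (right_mem_segment ℝ _ _)
  refine IsConnected.union ⟨vS true, Or.inl (Or.inl (Or.inl t)), g true true⟩ ?_ (arm_conn _ _)
  refine IsConnected.union ⟨vS false, Or.inl (Or.inl f), g true false⟩ ?_ (arm_conn _ _)
  refine IsConnected.union ⟨vS true, Or.inl t, g false true⟩ ?_ (arm_conn _ _)
  exact IsConnected.union ⟨vS false, f, g false false⟩ (seg_conn _ _) (arm_conn _ _)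

theorem mem_SS (i : Lb) : ctr i ∈ SS := by
  obtain ⟨h, v, k⟩ := i
  refine leg_sub h v ?_
  cases k
  · exact left_mem_segment ℝ _ _
  · refine ⟨100 / 101, 1 / 101, by norm_num, by norm_num, by norm_num, ?_⟩
    change _ = co h v
    refine pl_ext ?_ ?_
    · simp
      ring
    · simp
      ring

theorem mem_TT (i : Lb) : ctr i ∈ TT := by
  obtain ⟨h, v, k⟩ := i
  refine arm_sub h v (Or.inl ?_)
  cases k
  · exact left_mem_segment ℝ _ _
  · exact right_mem_segment ℝ _ _

theorem SS_ne_TT : SS ≠ TT := by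
  intro he
  have hlo := s3_lo
  have h1 : vS true ∈ SS := by
    rw [he]
    exact Or.inl (Or.inl (Or.inl (Or.inl (right_mem_segment ℝ _ _))))
  have hleg : ∀ h v, vS true ∉ leg h v := by
    rintro h v ⟨a, b, ha, hb, hab, hz⟩
    have h0 := congrFun (congrArg WithLp.ofLp hz) 0
    simp at h0
    cases h <;> simp at h0 <;> nlinarith
  rcases h1 with (((h1 | h1) | h1) | h1) | h1
  · obtain ⟨a, b, ha, hb, hab, hz⟩ := h1
    have h0 := congrFun (congrArg WithLp.ofLp hz) 1
    simp at h0
    linarith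
  · exact hleg _ _ h1
  · exact hleg _ _ h1
  · exact hleg _ _ h1
  · exact hleg _ _ h1

theorem mu_union {A B : Set Pl} {a b : ℝ} (ha : 0 ≤ a) (hb : 0 ≤ b)
    (hA : Measure.hausdorffMeasure 1 A ≤ ENNReal.ofReal a)
    (hB : Measure.hausdorffMeasure 1 B ≤ ENNReal.ofReal b) :
    Measure.hausdorffMeasure 1 (A ∪ B) ≤ ENNReal.ofReal (a + b) := by
  rw [ENNReal.ofReal_add ha hb]
  exact (measure_union_le _ _).trans (add_le_add hA hB)

theorem mu_seg {x y : Pl} {c : ℝ} (hc : 0 ≤ c) (h : (x 0 - y 0) ^ 2 + (x 1 - y 1) ^ 2 = c ^ 2) :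
    Measure.hausdorffMeasure 1 (segment ℝ x y) ≤ ENNReal.ofReal c := by
  rw [hausdorffMeasure_segment, edist_dist, pl_dist hc h]

theorem SS_mu : Measure.hausdorffMeasure 1 SS ≤ ENNReal.ofReal LL := by
  have h3 : √3 ^ 2 = 3 := Real.sq_sqrt (by norm_num)
  have hlo := s3_lo
  have hl : ∀ h v, Measure.hausdorffMeasure 1 (leg h v) ≤ ENNReal.ofReal (2 + 2 / 100) := by
    intro h v
    refine mu_seg (by norm_num) ?_
    have e1 := sg_sq h
    have e2 := sg_sq v
    simp only [wh0, wh1, hS0, hS1]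
    have : (sg h * (√3 + 1 / 100) - sg h * (√3 - 1)) ^ 2 + (sg v * (√3 * (1 + 1 / 100)) - 0) ^ 2 =
      sg h ^ 2 * (1 + 1 / 100) ^ 2 + sg v ^ 2 * √3 ^ 2 * (1 + 1 / 100) ^ 2 := by ring
    rw [this, e1, e2, h3]
    norm_num
  have hc : Measure.hausdorffMeasure 1 (segment ℝ (hS false) (hS true)) ≤
      ENNReal.ofReal (2 * (√3 - 1)) := by
    refine mu_seg (by linarith) ?_
    simp
    ring
  have e : LL = 2 * (√3 - 1) + (2 + 2 / 100) + (2 + 2 / 100) + (2 + 2 / 100) + (2 + 2 / 100) := by
    unfold LL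
    ring
  rw [e]
  exact mu_union (by linarith) (by norm_num) (mu_union (by linarith) (by norm_num)
    (mu_union (by linarith) (by norm_num) (mu_union (by linarith) (by norm_num) hc (hl _ _))
    (hl _ _)) (hl _ _)) (hl _ _)

theorem TT_mu : Measure.hausdorffMeasure 1 TT ≤ ENNReal.ofReal LL := by
  have h3 : √3 ^ 2 = 3 := Real.sq_sqrt (by norm_num)
  have hlo := s3_lo
  have hl : ∀ h v, Measure.hausdorffMeasure 1 (arm h v) ≤ ENNReal.ofReal (2 / 100 + 2) := by
    intro h v
    have e1 := sg_sq h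
    have e2 := sg_sq v
    refine mu_union (by norm_num) (by norm_num) (mu_seg (by norm_num) ?_)
      (mu_seg (by norm_num) ?_)
    · simp only [wh0, wh1, co0, co1]
      have : (sg h * (√3 + 1 / 100) - sg h * √3) ^ 2 +
        (sg v * (√3 * (1 + 1 / 100)) - sg v * √3) ^ 2 =
        sg h ^ 2 * (1 / 100) ^ 2 + sg v ^ 2 * √3 ^ 2 * (1 / 100) ^ 2 := by ring
      rw [this, e1, e2, h3]
      norm_num
    · simp only [vS0, vS1, co0, co1]
      have : (sg h * √3 - 0) ^ 2 + (sg v * √3 - sg v * (√3 - 1)) ^ 2 =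
        sg h ^ 2 * √3 ^ 2 + sg v ^ 2 := by ring
      rw [this, e1, e2, h3]
      norm_num
  have hc : Measure.hausdorffMeasure 1 (segment ℝ (vS false) (vS true)) ≤
      ENNReal.ofReal (2 * (√3 - 1)) := by
    refine mu_seg (by linarith) ?_
    simp
    ring
  have e : LL = 2 * (√3 - 1) + (2 / 100 + 2) + (2 / 100 + 2) + (2 / 100 + 2) + (2 / 100 + 2) := by
    unfold LL
    ring
  rw [e]
  exact mu_union (by linarith) (by norm_num) (mu_union (by linarith) (by norm_num)
    (mu_union (by linarith) (by norm_num) (mu_union (by linarith) (by norm_num) hc (hl _ _))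
    (hl _ _)) (hl _ _)) (hl _ _)

theorem lower {W : Set Pl} (hW : IsCompact W) (hWc : IsConnected W)
    (hM : ∀ y ∈ Set.range mp, Metric.infDist y W ≤ rr) :
    ENNReal.ofReal LL ≤ Measure.hausdorffMeasure 1 W := by
  by_contra hc
  push Not at hc
  have hX : ∀ i, ∃ x ∈ W, dist x (mp i) ≤ rr := by
    intro i
    obtain ⟨x, hx, hd⟩ := hW.exists_infDist_eq_dist hWc.nonempty (mp i)
    refine ⟨x, hx, ?_⟩
    rw [dist_comm, ← hd]
    exact hM _ ⟨i, rfl⟩
  choose X hXW hXd using hX
  obtain ⟨z, ν, h1, h2⟩ := exists_tree hW hWc hc X hXW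
  exact absurd (comb h1 hXd) (not_le.2 h2)

/-! ### No terminal is interior to a segment of the vertical tree -/

theorem not_open {T : Set Pl} {a : Pl} (u0 u1 : ℝ)
    (h : ∀ z ∈ T, |z 0 - a 0| < 1 → |z 1 - a 1| < 1 →
      z = a ∨ 0 < u0 * (z 0 - a 0) + u1 * (z 1 - a 1)) :
    ¬ ∃ x y : Pl, x ≠ y ∧ segment ℝ x y ⊆ T ∧ a ∈ openSegment ℝ x y := by
  rintro ⟨x, y, hxy, hT, α, β, hα, hβ, hαβ, ha⟩
  set M : ℝ := 1 + |y 0 - x 0| + |y 1 - x 1| with hM
  have hM0 : 0 < M := by positivity
  obtain ⟨s, hs0, hs1, hs2, hs3⟩ : ∃ s : ℝ, 0 < s ∧ s ≤ α ∧ s ≤ β ∧ s * M < 1 := by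
    refine ⟨min (min α β) (1 / (2 * M)), ?_, ?_, ?_, ?_⟩
    · exact lt_min (lt_min hα hβ) (by positivity)
    · exact (min_le_left _ _).trans (min_le_left _ _)
    · exact (min_le_left _ _).trans (min_le_right _ _)
    · calc min (min α β) (1 / (2 * M)) * M ≤ 1 / (2 * M) * M :=
          mul_le_mul_of_nonneg_right (min_le_right _ _) hM0.le
        _ = 1 / 2 := by field_simp
        _ < 1 := by norm_num
  have p0 : |s * (y 0 - x 0)| < 1 := by
    rw [abs_mul, abs_of_pos hs0]
    have := abs_nonneg (y 1 - x 1)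
    nlinarith
  have p1 : |s * (y 1 - x 1)| < 1 := by
    rw [abs_mul, abs_of_pos hs0]
    have := abs_nonneg (y 0 - x 0)
    nlinarith
  have a0 : a 0 = α * x 0 + β * y 0 := by rw [← ha]; simp
  have a1 : a 1 = α * x 1 + β * y 1 := by rw [← ha]; simp
  have hz1 : a + s • (y - x) ∈ T := hT ⟨α - s, β + s, by linarith, by linarith, by linarith,
    pl_ext (by simp [a0]; ring) (by simp [a1]; ring)⟩
  have hz2 : a - s • (y - x) ∈ T := hT ⟨α + s, β - s, by linarith, by linarith, by linarith,
    pl_ext (by simp [a0]; ring) (by simp [a1]; ring)⟩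
  have hne : s • (y - x) ≠ 0 := smul_ne_zero hs0.ne' (sub_ne_zero.2 hxy.symm)
  have c1 := h _ hz1 (by simpa using p0) (by simpa using p1)
  have c2 := h _ hz2 (by
    have : (a - s • (y - x)) 0 - a 0 = -(s * (y 0 - x 0)) := by simp
    rw [this, abs_neg]; exact p0) (by
    have : (a - s • (y - x)) 1 - a 1 = -(s * (y 1 - x 1)) := by simp
    rw [this, abs_neg]; exact p1)
  rcases c1 with c1 | c1
  · exact hne (by simpa using c1)
  rcases c2 with c2 | c2
  · exact hne (by simpa using c2)
  simp at c1 c2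
  linarith

/-- near a terminal the vertical tree is its arm -/
theorem local_arm (h v : Bool) (a : Pl) (h0 : √3 ≤ sg h * a 0) (h1 : √3 ≤ sg v * a 1) {z : Pl}
    (hz : z ∈ TT) (z0 : |z 0 - a 0| < 1) (z1 : |z 1 - a 1| < 1) : z ∈ arm h v := by
  have hlo := s3_lo
  have z0' := abs_lt.1 z0
  have z1' := abs_lt.1 z1
  have hpos0 : 0 < sg h * z 0 := by cases h <;> simp at h0 ⊢ <;> linarith
  have hpos1 : 0 < sg v * z 1 := by cases v <;> simp at h1 ⊢ <;> linarith
  have harm : ∀ h' v', z ∈ arm h' v' → 0 ≤ sg h' * z 0 ∧ 0 ≤ sg v' * z 1 := by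
    intro h' v' hz
    rcases hz with ⟨α, β, hα, hβ, hαβ, rfl⟩ | ⟨α, β, hα, hβ, hαβ, rfl⟩
    · constructor
      · cases h' <;> simp <;> nlinarith
      · cases v' <;> simp <;> nlinarith
    · constructor
      · cases h' <;> simp <;> nlinarith
      · cases v' <;> simp <;> nlinarith
  have key : ∀ h' v', z ∈ arm h' v' → z ∈ arm h v := by
    intro h' v' hz
    obtain ⟨b0, b1⟩ := harm h' v' hz
    have e0 : h' = h := by
      cases h' <;> cases h <;> simp at b0 hpos0 ⊢ <;> linarith
    have e1 : v' = v := by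
      cases v' <;> cases v <;> simp at b1 hpos1 ⊢ <;> linarith
    rw [← e0, ← e1]
    exact hz
  rcases hz with (((hz | hz) | hz) | hz) | hz
  · obtain ⟨α, β, hα, hβ, hαβ, rfl⟩ := hz
    simp at hpos0
  · exact key _ _ hz
  · exact key _ _ hz
  · exact key _ _ hz
  · exact key _ _ hz

theorem corner_ok (h v : Bool) : ¬ ∃ x y : Pl, x ≠ y ∧ segment ℝ x y ⊆ TT ∧
    co h v ∈ openSegment ℝ x y := by
  have hlo := s3_lo
  have e1 := sg_sq h
  have e2 := sg_sq v
  refine not_open (-sg h) (sg v) fun z hz z0 z1 => ?_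
  have := local_arm h v (co h v) (by cases h <;> simp) (by cases v <;> simp) hz z0 z1
  rcases this with ⟨α, β, hα, hβ, hαβ, rfl⟩ | ⟨α, β, hα, hβ, hαβ, rfl⟩
  · rcases hα.eq_or_lt with h0 | h0
    · left
      rw [← h0] at hαβ ⊢
      have : β = 1 := by linarith
      rw [this]
      simp
    · right
      have hb : β = 1 - α := by linarith
      subst hb
      simp
      cases h <;> cases v <;> simp <;> nlinarith
  · rcases hβ.eq_or_lt with h0 | h0
    · left
      rw [← h0] at hαβ ⊢
      have : α = 1 := by linarith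
      rw [this]
      simp
    · right
      have hb : α = 1 - β := by linarith
      subst hb
      simp
      cases h <;> cases v <;> simp <;> nlinarith

theorem tip_ok (h v : Bool) : ¬ ∃ x y : Pl, x ≠ y ∧ segment ℝ x y ⊆ TT ∧
    wh h v ∈ openSegment ℝ x y := by
  have hlo := s3_lo
  have e1 := sg_sq h
  have e2 := sg_sq v
  refine not_open (-sg h) (-sg v) fun z hz z0 z1 => ?_
  have := local_arm h v (wh h v) (by cases h <;> simp) (by cases v <;> simp <;> linarith) hz z0 z1
  rcases this with ⟨α, β, hα, hβ, hαβ, rfl⟩ | ⟨α, β, hα, hβ, hαβ, rfl⟩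
  · rcases hβ.eq_or_lt with h0 | h0
    · left
      rw [← h0] at hαβ ⊢
      have : α = 1 := by linarith
      rw [this]
      simp
    · right
      have hb : α = 1 - β := by linarith
      subst hb
      simp
      cases h <;> cases v <;> simp <;> nlinarith
  · right
    have hb : α = 1 - β := by linarith
    subst hb
    simp
    cases h <;> cases v <;> simp <;> nlinarith

theorem ctr_inj : Function.Injective ctr := by
  have hlo := s3_lo
  rintro ⟨h, v, k⟩ ⟨h', v', k'⟩ he
  have e0 := congrFun (congrArg WithLp.ofLp he) 0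
  have e1 := congrFun (congrArg WithLp.ofLp he) 1
  cases h <;> cases h' <;> cases v <;> cases v' <;> cases k <;> cases k' <;>
    simp [ctr] at e0 e1 ⊢ <;> linarith

theorem mp_inj : Function.Injective mp := by
  have hlo := s3_lo
  have hhi := s3_hi
  have h2 : 0 < √2 := Real.sqrt_pos.2 (by norm_num)
  have h2' : √2 < 2 := by
    rw [Real.sqrt_lt' (by norm_num)]
    norm_num
  rintro ⟨h, v, k⟩ ⟨h', v', k'⟩ he
  have e0 := congrFun (congrArg WithLp.ofLp he) 0
  have e1 := congrFun (congrArg WithLp.ofLp he) 1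
  cases h <;> cases h' <;> cases v <;> cases v' <;> cases k <;> cases k' <;>
    simp [mp, ctr, om, rr] at e0 e1 ⊢ <;> linarith

end Pool.Agent.X189.ST
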