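import Pool.Agent.X189.ST.Tree

set_option autoImplicit false
set_option linter.unusedSectionVars false
set_option linter.unusedSimpArgs false

/-!
The lower bound for trees through eight terminals near the corners of a square.
-/

namespace Pool.Agent.X189.ST

open Set

/-- the plane -/
abbrev Pl := EuclideanSpace ℝ (Fin 2)

/-- labels: right?, top?, corner (`true`) or whisker (`false`) -/
abbrev Lb := Bool × Bool × Bool

theorem sum8 (I : Finset Lb) (f : Lb → ℝ) : ∑ i ∈ I, f i =
    (if (false, false, false) ∈ I then f (false, false, false) else 0) +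
    (if (false, false, true) ∈ I then f (false, false, true) else 0) +
    (if (false, true, false) ∈ I then f (false, true, false) else 0) +
    (if (false, true, true) ∈ I then f (false, true, true) else 0) +
    (if (true, false, false) ∈ I then f (true, false, false) else 0) +
    (if (true, false, true) ∈ I then f (true, false, true) else 0) +
    (if (true, true, false) ∈ I then f (true, true, false) else 0) +
    (if (true, true, true) ∈ I then f (true, true, true) else 0) := by
  have : ∑ i ∈ I, f i = ∑ i, if i ∈ I then f i else 0 := by simp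
  rw [this]
  simp only [Fintype.sum_prod_type, Fintype.sum_bool]
  ring

theorem sum8u (f : Lb → ℝ) : ∑ i, f i =
    f (false, false, false) + f (false, false, true) + f (false, true, false) +
    f (false, true, true) + f (true, false, false) + f (true, false, true) +
    f (true, true, false) + f (true, true, true) := by
  simp only [Fintype.sum_prod_type, Fintype.sum_bool]
  ring

theorem bound {X : Lb → Pl} {x : Pl} {ν : Finset Lb → ℝ} (h : RT X Finset.univ x ν)
    (f g : Lb → ℝ) (hf : ∑ i, f i = 0) (hg : ∑ i, g i = 0)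
    (hn : ∀ I, ν I ≠ 0 → (∑ i ∈ I, f i) ^ 2 + (∑ i ∈ I, g i) ^ 2 ≤ 1) :
    ∑ i, (f i * X i 0 + g i * X i 1) ≤ tot ν := by
  set F : Lb → Pl := fun i => !₂[f i, g i] with hF
  have h1 := h.vec F
  have h2 : ∑ i, inner ℝ (F i) (X i - x) = ∑ i, (f i * X i 0 + g i * X i 1) := by
    have e : ∀ i, inner ℝ (F i) (X i - x) =
        (f i * X i 0 + g i * X i 1) - f i * x 0 - g i * x 1 := by
      intro i
      simp [hF, PiLp.inner_apply, Fin.sum_univ_two]
      ring
    simp only [e]
    rw [Finset.sum_sub_distrib, Finset.sum_sub_distrib, ← Finset.sum_mul, ← Finset.sum_mul, hf, hg]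
    ring
  have h3 : ∑ I, ν I * ‖∑ i ∈ I, F i‖ ≤ tot ν := by
    refine Finset.sum_le_sum fun I _ => ?_
    by_cases hI : ν I = 0
    · rw [hI, zero_mul]
    · have h4 : ‖∑ i ∈ I, F i‖ ≤ 1 := by
        rw [EuclideanSpace.norm_eq, Real.sqrt_le_one]
        · have e0 : (∑ i ∈ I, F i) 0 = ∑ i ∈ I, f i := by simp [hF]
          have e1 : (∑ i ∈ I, F i) 1 = ∑ i ∈ I, g i := by simp [hF]
          rw [Fin.sum_univ_two, e0, e1, Real.norm_eq_abs, Real.norm_eq_abs, sq_abs, sq_abs]
          exact hn I hI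
      have := h.nonneg I
      nlinarith
  rw [h2] at h1
  exact h1.trans h3

/-- sign -/
def sg (b : Bool) : ℝ := if b then 1 else -1

@[simp] theorem sg_true : sg true = 1 := rfl
@[simp] theorem sg_false : sg false = -1 := rfl

/-! ### The coarse bound -/

/-- first coordinates of the coarse forces -/
noncomputable def fC (v1 h0 : Bool) (i : Lb) : ℝ :=
  if i.2.2 then (if i.2.1 = v1 ∧ i.1 = h0 then 0.26 * sg h0 else 0)
  else if i.2.1 = v1 then sg i.1
  else if i.1 = h0 then 0.7 * sg h0 else -0.96 * sg h0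

/-- second coordinates of the coarse forces -/
noncomputable def gC (v1 h0 : Bool) (i : Lb) : ℝ :=
  if i.2.2 then (if i.2.1 = v1 ∧ i.1 = h0 then 0.96 * sg v1 else 0)
  else if i.2.1 = v1 then 0
  else if i.1 = h0 then -0.7 * sg v1 else -0.26 * sg v1

theorem coarse_norm (v1 h0 : Bool) (I : Finset Lb)
    (hI : ((true, v1, false) ∈ I ↔ (false, v1, false) ∈ I) ∨
      (((h0, v1, true) ∈ I ↔ (h0, !v1, false) ∈ I) ∧
        ((h0, !v1, false) ∈ I ↔ (!h0, !v1, false) ∈ I))) :
    (∑ i ∈ I, fC v1 h0 i) ^ 2 + (∑ i ∈ I, gC v1 h0 i) ^ 2 ≤ 1 := by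
  rw [sum8, sum8]
  cases v1 <;> cases h0 <;> simp only [fC, gC, sg] <;> simp only [Bool.not_true, Bool.not_false] at hI
  all_goals
    by_cases a1 : (false, false, false) ∈ I <;> by_cases a2 : (false, true, false) ∈ I <;>
    by_cases a3 : (true, false, false) ∈ I <;> by_cases a4 : (true, true, false) ∈ I <;>
    simp only [a1, a2, a3, a4, iff_true, iff_false, true_iff, false_iff, not_true, not_false_iff,
      true_or, or_true, and_true, true_and, and_false, false_and, false_or, or_false] at hI <;>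
    simp [a1, a2, a3, a4] <;> (split_ifs <;> norm_num)

theorem data_real {a b u v r : ℝ} (hr : 0 < r) (hω : u ^ 2 + v ^ 2 = 1)
    (h : (a - r * u) ^ 2 + (b - r * v) ^ 2 ≤ r ^ 2) :
    0 ≤ u * a + v * b ∧ |a| ≤ 2 * r ∧ |b| ≤ 2 * r := by
  have h1 : 0 ≤ 2 * r * (u * a + v * b) := by nlinarith [sq_nonneg a, sq_nonneg b]
  have hu : |u| ≤ 1 := abs_le_one_iff_mul_self_le_one.2 (by nlinarith [sq_nonneg v])
  have hv : |v| ≤ 1 := abs_le_one_iff_mul_self_le_one.2 (by nlinarith [sq_nonneg u])
  refine ⟨?_, ?_, ?_⟩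
  · by_contra hc
    push Not at hc
    nlinarith
  · have h2 : |a - r * u| ≤ r := abs_le_of_sq_le_sq (by nlinarith [sq_nonneg (b - r * v)]) hr.le
    have h3 := abs_le.1 h2
    have h4 := abs_le.1 hu
    rw [abs_le]
    constructor <;> nlinarith
  · have h2 : |b - r * v| ≤ r := abs_le_of_sq_le_sq (by nlinarith [sq_nonneg (a - r * u)]) hr.le
    have h3 := abs_le.1 h2
    have h4 := abs_le.1 hv
    rw [abs_le]
    constructor <;> nlinarith

/-- the terminals -/
noncomputable def ctr (i : Lb) : Pl :=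
  if i.2.2 then !₂[sg i.1 * √3, sg i.2.1 * √3]
  else !₂[sg i.1 * (√3 + 1 / 100), sg i.2.1 * (√3 * (1 + 1 / 100))]

/-- the directions -/
noncomputable def om (i : Lb) : Pl :=
  if i.2.2 then !₂[sg i.1 * (√2 / 2), -sg i.2.1 * (√2 / 2)]
  else !₂[sg i.1 / 2, sg i.2.1 * (√3 / 2)]

/-- the radius -/
noncomputable def rr : ℝ := 1 / 1000

theorem sg_sq (b : Bool) : sg b ^ 2 = 1 := by cases b <;> simp

theorem om_norm (i : Lb) : (om i 0) ^ 2 + (om i 1) ^ 2 = 1 := by
  have h3 : √3 ^ 2 = 3 := Real.sq_sqrt (by norm_num)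
  have h2 : √2 ^ 2 = 2 := Real.sq_sqrt (by norm_num)
  have hs1 := sg_sq i.1
  have hs2 := sg_sq i.2.1
  unfold om
  split_ifs
  · simp only [PiLp.toLp_apply, Matrix.cons_val_zero, Matrix.cons_val_one]
    nlinarith
  · simp only [PiLp.toLp_apply, Matrix.cons_val_zero, Matrix.cons_val_one]
    nlinarith

/-- the points of `M` -/
noncomputable def mp (i : Lb) : Pl := ctr i + rr • om i

theorem data {i : Lb} {y : Pl} (h : dist y (mp i) ≤ rr) :
    0 ≤ om i 0 * (y 0 - ctr i 0) + om i 1 * (y 1 - ctr i 1) ∧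
      |y 0 - ctr i 0| ≤ 2 * rr ∧ |y 1 - ctr i 1| ≤ 2 * rr := by
  have hr : 0 < rr := by unfold rr; norm_num
  refine data_real hr (om_norm i) ?_
  rw [EuclideanSpace.dist_eq, Fin.sum_univ_two, Real.dist_eq, Real.dist_eq, sq_abs, sq_abs] at h
  have h2 := Real.sqrt_le_left hr.le |>.1 h
  unfold mp at h2
  simp only [PiLp.add_apply, PiLp.smul_apply, smul_eq_mul] at h2
  have e0 : y 0 - ctr i 0 - rr * om i 0 = y 0 - (ctr i 0 + rr * om i 0) := by ring
  have e1 : y 1 - ctr i 1 - rr * om i 1 = y 1 - (ctr i 1 + rr * om i 1) := by ring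
  rw [e0, e1]
  exact h2

/-- coordinate form of the hypotheses -/
def Hyp (X : Lb → Pl) : Prop := ∀ i, dist (X i) (mp i) ≤ rr

theorem s3_lo : 1.732 < √3 := by
  rw [Real.lt_sqrt (by norm_num)]
  norm_num

theorem s3_hi : √3 < 1.7321 := by
  rw [Real.sqrt_lt' (by norm_num)]
  norm_num

/-- the separation of the coarse case -/
def Sep (I : Finset Lb) (v1 h0 : Bool) : Prop :=
  ((true, v1, false) ∈ I ∧ (false, v1, false) ∈ I ∧ (h0, v1, true) ∉ I ∧ (h0, !v1, false) ∉ I ∧
    (!h0, !v1, false) ∉ I) ∨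
  ((true, v1, false) ∉ I ∧ (false, v1, false) ∉ I ∧ (h0, v1, true) ∈ I ∧ (h0, !v1, false) ∈ I ∧
    (!h0, !v1, false) ∈ I)

theorem coarse {X : Lb → Pl} {x : Pl} {ν : Finset Lb → ℝ} (h : RT X Finset.univ x ν)
    (hX : Hyp X) {J : Finset Lb} (hJ : ν J ≠ 0) {v1 h0 : Bool} (hs : Sep J v1 h0) :
    10 ≤ tot ν := by
  have hb := bound h (fC v1 h0) (gC v1 h0)
    (by rw [sum8u]; cases v1 <;> cases h0 <;> simp [fC, sg] <;> norm_num)
    (by rw [sum8u]; cases v1 <;> cases h0 <;> simp [gC, sg] <;> norm_num) (by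
      intro I hI
      refine coarse_norm v1 h0 I ?_
      rcases h.lam I J hI hJ with hl | hl | hl
      · rcases hs with ⟨_, _, s3, s4, s5⟩ | ⟨s1, s2, _, _, _⟩
        · have t3 : (h0, v1, true) ∉ I := fun h' => s3 (hl h')
          have t4 : (h0, !v1, false) ∉ I := fun h' => s4 (hl h')
          have t5 : (!h0, !v1, false) ∉ I := fun h' => s5 (hl h')
          exact Or.inr ⟨iff_of_false t3 t4, iff_of_false t4 t5⟩
        · exact Or.inl (iff_of_false (fun h' => s1 (hl h')) (fun h' => s2 (hl h')))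
      · rcases hs with ⟨s1, s2, _, _, _⟩ | ⟨_, _, s3, s4, s5⟩
        · exact Or.inl (iff_of_true (hl s1) (hl s2))
        · exact Or.inr ⟨iff_of_true (hl s3) (hl s4), iff_of_true (hl s4) (hl s5)⟩
      · rw [Finset.disjoint_left] at hl
        rcases hs with ⟨s1, s2, _, _, _⟩ | ⟨_, _, s3, s4, s5⟩
        · exact Or.inl (iff_of_false (fun h' => hl h' s1) (fun h' => hl h' s2))
        · have t3 : (h0, v1, true) ∉ I := fun h' => hl h' s3
          have t4 : (h0, !v1, false) ∉ I := fun h' => hl h' s4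
          have t5 : (!h0, !v1, false) ∉ I := fun h' => hl h' s5
          exact Or.inr ⟨iff_of_false t3 t4, iff_of_false t4 t5⟩)
  refine le_trans ?_ hb
  have hd := fun i => data (hX i)
  have k0 := fun i => abs_le.1 (hd i).2.1
  have k1 := fun i => abs_le.1 (hd i).2.2
  have hlo := s3_lo
  have hhi := s3_hi
  have r1 : rr = 1 / 1000 := rfl
  have a1 := k0 (false, false, false)
  have a2 := k0 (false, false, true)
  have a3 := k0 (false, true, false)
  have a4 := k0 (false, true, true)
  have a5 := k0 (true, false, false)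
  have a6 := k0 (true, false, true)
  have a7 := k0 (true, true, false)
  have a8 := k0 (true, true, true)
  have b1 := k1 (false, false, false)
  have b2 := k1 (false, false, true)
  have b3 := k1 (false, true, false)
  have b4 := k1 (false, true, true)
  have b5 := k1 (true, false, false)
  have b6 := k1 (true, false, true)
  have b7 := k1 (true, true, false)
  have b8 := k1 (true, true, true)
  rw [sum8u]
  simp only [ctr, sg, if_true, if_false, Bool.false_eq_true, PiLp.toLp_apply,
    Matrix.cons_val_zero, Matrix.cons_val_one, r1] at a1 a2 a3 a4 a5 a6 a7 a8 b1 b2 b3 b4 b5 b6 b7 b8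
  cases v1 <;> cases h0 <;> simp [fC, gC, sg] <;> linarith

/-! ### The fine bounds -/

/-- the constant `(√3 - 1) / 2` -/
noncomputable def kp : ℝ := (√3 - 1) / 2

/-- forces of the horizontal tree -/
noncomputable def fS (i : Lb) : ℝ := if i.2.2 then 0 else sg i.1 / 2
/-- forces of the horizontal tree -/
noncomputable def gS (i : Lb) : ℝ := if i.2.2 then 0 else sg i.2.1 * (√3 / 2)
/-- forces of the vertical tree -/
noncomputable def fT (i : Lb) : ℝ := if i.2.2 then sg i.1 * kp else sg i.1 / 2
/-- forces of the vertical tree -/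
noncomputable def gT (i : Lb) : ℝ := if i.2.2 then -sg i.2.1 * kp else sg i.2.1 * (√3 / 2)

/-- the whiskers in `I` are exactly those of the row `v` -/
def Row (I : Finset Lb) (v : Bool) : Prop :=
  (false, v, false) ∈ I ∧ (true, v, false) ∈ I ∧ (false, !v, false) ∉ I ∧ (true, !v, false) ∉ I

theorem S_norm (I : Finset Lb) (h1 : ¬ Row I false) (h2 : ¬ Row I true) :
    (∑ i ∈ I, fS i) ^ 2 + (∑ i ∈ I, gS i) ^ 2 ≤ 1 := by
  have h3 : √3 ^ 2 = 3 := Real.sq_sqrt (by norm_num)
  rw [sum8, sum8]
  unfold Row at h1 h2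
  simp only [fS, gS, sg, Bool.not_true, Bool.not_false] at h1 h2 ⊢
  by_cases a1 : (false, false, false) ∈ I <;> by_cases a2 : (false, true, false) ∈ I <;>
    by_cases a3 : (true, false, false) ∈ I <;> by_cases a4 : (true, true, false) ∈ I <;>
    simp [a1, a2, a3, a4] at h1 h2 ⊢ <;> nlinarith

theorem T_norm (I : Finset Lb) (h1 : Row I false → ((false, false, true) ∈ I ∧
      (true, false, true) ∈ I ∧ (false, true, true) ∉ I ∧ (true, true, true) ∉ I))
    (h2 : Row I true → ((false, true, true) ∈ I ∧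
      (true, true, true) ∈ I ∧ (false, false, true) ∉ I ∧ (true, false, true) ∉ I))
    (v : Bool) (hv : (∀ h k, (h, v, k) ∈ I) ∨ (∀ h k, (h, v, k) ∉ I)) :
    (∑ i ∈ I, fT i) ^ 2 + (∑ i ∈ I, gT i) ^ 2 ≤ 1 := by
  have h3 : √3 ^ 2 = 3 := Real.sq_sqrt (by norm_num)
  have hlo := s3_lo
  have hhi := s3_hi
  rw [sum8, sum8]
  unfold Row at h1 h2
  simp only [fT, gT, sg, kp, Bool.not_true, Bool.not_false] at h1 h2 ⊢
  cases v <;> rcases hv with hv | hv
  all_goals
    have v1 := hv false false
    have v2 := hv false true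
    have v3 := hv true false
    have v4 := hv true true
  · by_cases a1 : (false, true, false) ∈ I <;> by_cases a2 : (false, true, true) ∈ I <;>
    by_cases a3 : (true, true, false) ∈ I <;> by_cases a4 : (true, true, true) ∈ I <;>
    simp [v1, v2, v3, v4, a1, a2, a3, a4] at h1 h2 ⊢ <;>
      first | nlinarith | (rw [abs_le]; constructor <;> linarith)
  · by_cases a1 : (false, true, false) ∈ I <;> by_cases a2 : (false, true, true) ∈ I <;>
    by_cases a3 : (true, true, false) ∈ I <;> by_cases a4 : (true, true, true) ∈ I <;>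
    simp [v1, v2, v3, v4, a1, a2, a3, a4] at h1 h2 ⊢ <;>
      first | nlinarith | (rw [abs_le]; constructor <;> linarith)
  · by_cases a1 : (false, false, false) ∈ I <;> by_cases a2 : (false, false, true) ∈ I <;>
    by_cases a3 : (true, false, false) ∈ I <;> by_cases a4 : (true, false, true) ∈ I <;>
    simp [v1, v2, v3, v4, a1, a2, a3, a4] at h1 h2 ⊢ <;>
      first | nlinarith | (rw [abs_le]; constructor <;> linarith)
  · by_cases a1 : (false, false, false) ∈ I <;> by_cases a2 : (false, false, true) ∈ I <;>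
    by_cases a3 : (true, false, false) ∈ I <;> by_cases a4 : (true, false, true) ∈ I <;>
    simp [v1, v2, v3, v4, a1, a2, a3, a4] at h1 h2 ⊢ <;>
      first | nlinarith | (rw [abs_le]; constructor <;> linarith)

/-- the common length -/
noncomputable def LL : ℝ := 6 + 2 * √3 + 8 / 100

theorem S_val {X : Lb → Pl} (hX : Hyp X) : LL ≤ ∑ i, (fS i * X i 0 + gS i * X i 1) := by
  have h3 : √3 ^ 2 = 3 := Real.sq_sqrt (by norm_num)
  have hd := fun i => (data (hX i)).1
  have a1 := hd (false, false, false)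
  have a3 := hd (false, true, false)
  have a5 := hd (true, false, false)
  have a7 := hd (true, true, false)
  rw [sum8u]
  simp only [ctr, om, sg, if_true, if_false, Bool.false_eq_true, PiLp.toLp_apply,
    Matrix.cons_val_zero, Matrix.cons_val_one] at a1 a3 a5 a7
  simp [fS, gS, sg, LL]
  nlinarith

theorem T_val {X : Lb → Pl} (hX : Hyp X) : LL ≤ ∑ i, (fT i * X i 0 + gT i * X i 1) := by
  have h3 : √3 ^ 2 = 3 := Real.sq_sqrt (by norm_num)
  have h20 : 0 < √2 := Real.sqrt_pos.2 (by norm_num)
  have hlo := s3_lo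
  have hd := fun i => (data (hX i)).1
  have hk : 0 ≤ kp := by
    unfold kp
    linarith
  have g : ∀ p q A B : ℝ, 0 ≤ p * (√2 / 2) * A + q * (√2 / 2) * B → 0 ≤ kp * (p * A + q * B) := by
    intro p q A B h
    have h5 : 0 ≤ √2 / 2 * (p * A + q * B) := by
      have : √2 / 2 * (p * A + q * B) = p * (√2 / 2) * A + q * (√2 / 2) * B := by ring
      rw [this]
      exact h
    have h6 : 0 ≤ p * A + q * B := nonneg_of_mul_nonneg_right h5 (by positivity)
    exact mul_nonneg hk h6
  have a1 := hd (false, false, false)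
  have a3 := hd (false, true, false)
  have a5 := hd (true, false, false)
  have a7 := hd (true, true, false)
  have a2 := hd (false, false, true)
  have a4 := hd (false, true, true)
  have a6 := hd (true, false, true)
  have a8 := hd (true, true, true)
  rw [sum8u]
  simp only [ctr, om, sg, if_true, if_false, Bool.false_eq_true, PiLp.toLp_apply,
    Matrix.cons_val_zero, Matrix.cons_val_one] at a1 a2 a3 a4 a5 a6 a7 a8
  have b2 := g _ _ _ _ a2
  have b4 := g _ _ _ _ a4
  have b6 := g _ _ _ _ a6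
  have b8 := g _ _ _ _ a8
  simp [fT, gT, sg, LL]
  nlinarith

theorem comb {X : Lb → Pl} {x : Pl} {ν : Finset Lb → ℝ} (h : RT X Finset.univ x ν)
    (hX : Hyp X) : LL ≤ tot ν := by
  by_cases hc : ∃ J v1 h0, ν J ≠ 0 ∧ Sep J v1 h0
  · obtain ⟨J, v1, h0, h1, h2⟩ := hc
    have h3 := coarse h hX h1 h2
    have h4 := s3_hi
    unfold LL
    linarith
  push Not at hc
  have hC : ∀ I, ν I ≠ 0 → ∀ v, Row I v → ((false, v, true) ∈ I ∧ (true, v, true) ∈ I ∧
      (false, !v, true) ∉ I ∧ (true, !v, true) ∉ I) := by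
    intro I hI v hv
    obtain ⟨r1, r2, r3, r4⟩ := hv
    refine ⟨?_, ?_, ?_, ?_⟩
    · by_contra h5
      exact hc I v false hI (Or.inl ⟨r2, r1, h5, r3, r4⟩)
    · by_contra h5
      exact hc I v true hI (Or.inl ⟨r2, r1, h5, r4, r3⟩)
    · intro h5
      exact hc I (!v) false hI (Or.inr ⟨r4, r3, h5, by simpa using r1, by simpa using r2⟩)
    · intro h5
      exact hc I (!v) true hI (Or.inr ⟨r4, r3, h5, by simpa using r2, by simpa using r1⟩)
  by_cases hr : ∃ J v, ν J ≠ 0 ∧ Row J v
  · obtain ⟨J, v, hJ, hJv⟩ := hr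
    have hJa := hC J hJ v hJv
    obtain ⟨r1, r2, r3, r4⟩ := hJv
    obtain ⟨q1, q2, q3, q4⟩ := hJa
    have hin : ∀ h k, (h, v, k) ∈ J := by
      intro h k
      cases h <;> cases k <;> assumption
    have hout : ∀ h k, (h, !v, k) ∉ J := by
      intro h k
      cases h <;> cases k <;> assumption
    refine (T_val hX).trans (bound h fT gT ?_ ?_ ?_)
    · rw [sum8u]
      simp [fT, sg]
      ring
    · rw [sum8u]
      simp [gT, sg]
    · intro I hI
      rcases h.lam I J hI hJ with hl | hl | hl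
      · exact T_norm I (hC I hI false) (hC I hI true) (!v) (Or.inr fun h k h' => hout h k (hl h'))
      · exact T_norm I (hC I hI false) (hC I hI true) v (Or.inl fun h k => hl (hin h k))
      · rw [Finset.disjoint_left] at hl
        exact T_norm I (hC I hI false) (hC I hI true) v (Or.inr fun h k h' => hl h' (hin h k))
  · push Not at hr
    refine (S_val hX).trans (bound h fS gS ?_ ?_ ?_)
    · rw [sum8u]
      simp [fS, sg]
      norm_num
    · rw [sum8u]
      simp [gS, sg]
    · intro I hI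
      exact S_norm I (hr I false hI) (hr I true hI)

end Pool.Agent.X189.ST
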