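import Mathlib

set_option autoImplicit false
set_option linter.unusedSectionVars false

/-!
Rooted trees with labelled terminals in an inner product space, and the trees inside a
connected family of small sets.
-/

namespace Pool.Agent.X189.ST

open MeasureTheory Set
open scoped ENNReal NNReal

variable {ι : Type} [DecidableEq ι] [Fintype ι]
variable {E : Type} [NormedAddCommGroup E] [InnerProductSpace ℝ E]

/-- total weight -/
noncomputable def tot (ν : Finset ι → ℝ) : ℝ := ∑ I, ν I

theorem tot_add (ν ν' : Finset ι → ℝ) : tot (ν + ν') = tot ν + tot ν' := by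
  simp [tot, Finset.sum_add_distrib]

theorem tot_single (s : Finset ι) (c : ℝ) : tot (Pi.single s c) = c := by
  simp [tot]

theorem tot_zero : tot (0 : Finset ι → ℝ) = 0 := by simp [tot]

/-- A rooted tree in `E` with terminals `X i`, `i ∈ s`, root `x`; `ν I` is the total length of the
edges below which exactly the terminals of `I` hang. -/
inductive RT (X : ι → E) : Finset ι → E → (Finset ι → ℝ) → Prop
  | tip (i : ι) : RT X {i} (X i) 0
  | join {s s' : Finset ι} {x : E} {ν ν' : Finset ι → ℝ} :
      Disjoint s s' → RT X s x ν → RT X s' x ν' → RT X (s ∪ s') x (ν + ν')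
  | move {s : Finset ι} {x : E} {ν : Finset ι → ℝ} (y : E) :
      RT X s x ν → RT X s y (ν + Pi.single s (dist x y))

variable {X : ι → E} {s : Finset ι} {x : E} {ν : Finset ι → ℝ}

theorem RT.nonneg (h : RT X s x ν) : ∀ I, 0 ≤ ν I := by
  induction h with
  | tip i => intro I; simp
  | join _ _ _ h1 h2 => intro I; exact add_nonneg (h1 I) (h2 I)
  | @move s x ν y _ h1 =>
    intro I
    refine add_nonneg (h1 I) ?_
    by_cases hI : I = s
    · subst hI; simp
    · simp [Pi.single_eq_of_ne hI]

theorem RT.supp (h : RT X s x ν) : ∀ I, ν I ≠ 0 → I ⊆ s := by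
  induction h with
  | tip i => intro I h; simp at h
  | @join s s' x ν ν' _ _ _ h1 h2 =>
    intro I hI
    by_cases h : ν I = 0
    · have : ν' I ≠ 0 := by
        intro h'
        exact hI (by simp [h, h'])
      exact (h2 I this).trans Finset.subset_union_right
    · exact (h1 I h).trans Finset.subset_union_left
  | @move s x ν y _ h1 =>
    intro I hI
    by_cases h : ν I = 0
    · by_cases hs : I = s
      · rw [hs]
      · exact absurd (by simp [h, Pi.single_eq_of_ne hs]) hI
    · exact h1 I h

theorem RT.lam (h : RT X s x ν) :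
    ∀ I J, ν I ≠ 0 → ν J ≠ 0 → I ⊆ J ∨ J ⊆ I ∨ Disjoint I J := by
  induction h with
  | tip i => intro I J h; simp at h
  | @join s s' x ν ν' hd a1 a2 h1 h2 =>
    intro I J hI hJ
    have key : ∀ I, (ν + ν') I ≠ 0 → ν I ≠ 0 ∨ ν' I ≠ 0 := by
      intro I hI
      by_contra hc
      push Not at hc
      exact hI (by simp [hc.1, hc.2])
    rcases key I hI with hI | hI <;> rcases key J hJ with hJ | hJ
    · exact h1 I J hI hJ
    · exact Or.inr (Or.inr (hd.mono (a1.supp I hI) (a2.supp J hJ)))
    · exact Or.inr (Or.inr (hd.symm.mono (a2.supp I hI) (a1.supp J hJ)))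
    · exact h2 I J hI hJ
  | @move s x ν y a1 h1 =>
    intro I J hI hJ
    have key : ∀ I, (ν + (Pi.single s (dist x y) : Finset ι → ℝ)) I ≠ 0 → ν I ≠ 0 ∨ I = s := by
      intro I hI
      by_contra hc
      push Not at hc
      exact hI (by simp [hc.1, Pi.single_eq_of_ne hc.2])
    rcases key I hI with hI | hI
    · rcases key J hJ with hJ | hJ
      · exact h1 I J hI hJ
      · rw [hJ]
        exact Or.inl (a1.supp I hI)
    · rcases key J hJ with hJ | hJ
      · rw [hI]
        exact Or.inr (Or.inl (a1.supp J hJ))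
      · rw [hI, hJ]
        exact Or.inl subset_rfl

theorem RT.vec (h : RT X s x ν) (F : ι → E) :
    ∑ i ∈ s, inner ℝ (F i) (X i - x) ≤ ∑ I, ν I * ‖∑ i ∈ I, F i‖ := by
  induction h with
  | tip i => simp
  | @join s s' x ν ν' hd a1 a2 h1 h2 =>
    rw [Finset.sum_union hd]
    simp only [Pi.add_apply, add_mul, Finset.sum_add_distrib]
    exact add_le_add h1 h2
  | @move s x ν y a1 h1 =>
    have e1 : ∑ i ∈ s, inner ℝ (F i) (X i - y) =
        ∑ i ∈ s, inner ℝ (F i) (X i - x) + inner ℝ (∑ i ∈ s, F i) (x - y) := by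
      rw [sum_inner, ← Finset.sum_add_distrib]
      refine Finset.sum_congr rfl fun i _ => ?_
      rw [← inner_add_right]
      congr 1
      abel
    have e2 : ∑ I, (ν + (Pi.single s (dist x y) : Finset ι → ℝ)) I * ‖∑ i ∈ I, F i‖ =
        ∑ I, ν I * ‖∑ i ∈ I, F i‖ + dist x y * ‖∑ i ∈ s, F i‖ := by
      simp only [Pi.add_apply, add_mul, Finset.sum_add_distrib]
      congr 1
      rw [Finset.sum_eq_single s]
      · simp
      · intro I _ hI
        simp [Pi.single_eq_of_ne hI]
      · simp
    rw [e1, e2]
    refine add_le_add h1 ?_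
    calc inner ℝ (∑ i ∈ s, F i) (x - y) ≤ ‖∑ i ∈ s, F i‖ * ‖x - y‖ := real_inner_le_norm _ _
      _ = dist x y * ‖∑ i ∈ s, F i‖ := by rw [dist_eq_norm, mul_comm]

/-- stars -/
theorem star {w : ℝ} {z : E} (s : Finset ι) (hs : s.Nonempty) (hz : ∀ i ∈ s, dist (X i) z ≤ w) :
    ∃ ν, RT X s z ν ∧ tot ν ≤ w * s.card := by
  induction hs using Finset.Nonempty.cons_induction with
  | singleton a =>
    refine ⟨_, RT.move z (RT.tip a), ?_⟩
    rw [tot_add, tot_zero, tot_single]
    simpa using hz a (by simp)
  | cons a s ha hs ih =>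
    obtain ⟨ν, h1, h2⟩ := ih fun i hi => hz i (by simp [hi])
    refine ⟨0 + Pi.single {a} (dist (X a) z) + ν, ?_, ?_⟩
    · rw [Finset.cons_eq_insert, Finset.insert_eq]
      exact RT.join (by simpa using ha) (RT.move z (RT.tip a)) h1
    · rw [tot_add, tot_add, tot_zero, tot_single, Finset.card_cons]
      push_cast
      have := hz a (by simp)
      linarith

/-- a finite family of sets that can be built by adding adjacent sets -/
inductive Chain {κ : Type} [DecidableEq κ] (V : κ → Set E) : Finset κ → Prop
  | one (k : κ) (hk : (V k).Nonempty) : Chain V {k}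
  | add {K : Finset κ} {k l : κ} : Chain V K → l ∈ K → k ∉ K → (V k ∩ V l).Nonempty →
      Chain V (insert k K)

theorem contract {κ : Type} [DecidableEq κ] {V : κ → Set E} {w : κ → ℝ} {δ : ℝ}
    (hw0 : ∀ k, 0 ≤ w k) (hwδ : ∀ k, w k ≤ δ) (hV : ∀ k, ∀ x ∈ V k, ∀ y ∈ V k, dist x y ≤ w k)
    {K : Finset κ} (hK : Chain V K) :
    ∀ (s : κ → Finset ι) (W : κ → ℝ), (∀ k ∈ K, w k ≤ W k) →
      (∀ k ∈ K, ∀ l ∈ K, k ≠ l → Disjoint (s k) (s l)) →
      (∀ k ∈ K, (s k).Nonempty → ∀ z ∈ V k, ∃ ν, RT X (s k) z ν ∧
        tot ν ≤ W k + δ * ((s k).card - 1)) →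
      (K.biUnion s).Nonempty →
      ∃ z ν, RT X (K.biUnion s) z ν ∧ tot ν ≤ ∑ k ∈ K, W k + δ * ((K.biUnion s).card - 1) := by
  induction hK with
  | one k hk =>
    intro s W _ _ h3 h4
    obtain ⟨z, hz⟩ := hk
    rw [Finset.singleton_biUnion] at h4 ⊢
    obtain ⟨ν, a1, a2⟩ := h3 k (by simp) h4 z hz
    exact ⟨z, ν, a1, by rw [Finset.sum_singleton]; exact a2⟩
  | @add K k l _ hl hk hkl ih =>
    intro s W h1 h2 h3 h4
    have hkl' : k ≠ l := fun h => hk (h ▸ hl)
    have hd : Disjoint (s l) (s k) :=
      h2 l (Finset.mem_insert_of_mem hl) k (Finset.mem_insert_self _ _) hkl'.symm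
    have hWk : 0 ≤ W k := (hw0 k).trans (h1 k (Finset.mem_insert_self _ _))
    have hwl : w l ≤ W l := h1 l (Finset.mem_insert_of_mem hl)
    set s' := Function.update s l (s l ∪ s k) with hs'
    set W' := Function.update W l (W l + W k) with hW'
    have hs'l : s' l = s l ∪ s k := by simp [hs']
    have hs'j : ∀ j, j ≠ l → s' j = s j := fun j hj => by simp [hs', hj]
    have hW'l : W' l = W l + W k := by simp [hW']
    have hW'j : ∀ j, j ≠ l → W' j = W j := fun j hj => by simp [hW', hj]
    have hU : K.biUnion s' = (insert k K).biUnion s := by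
      ext i
      simp only [Finset.mem_biUnion, Finset.mem_insert]
      constructor
      · rintro ⟨j, hj, hi⟩
        by_cases hjl : j = l
        · subst hjl
          rw [hs'l, Finset.mem_union] at hi
          rcases hi with hi | hi
          · exact ⟨j, Or.inr hj, hi⟩
          · exact ⟨k, Or.inl rfl, hi⟩
        · rw [hs'j j hjl] at hi
          exact ⟨j, Or.inr hj, hi⟩
      · rintro ⟨j, hj | hj, hi⟩
        · subst hj
          exact ⟨l, hl, by rw [hs'l]; exact Finset.mem_union_right _ hi⟩
        · by_cases hjl : j = l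
          · subst hjl
            exact ⟨j, hj, by rw [hs'l]; exact Finset.mem_union_left _ hi⟩
          · exact ⟨j, hj, by rw [hs'j j hjl]; exact hi⟩
    have hS : ∑ j ∈ K, W' j = ∑ j ∈ insert k K, W j := by
      rw [hW', Finset.sum_update_of_mem hl, Finset.sum_insert hk,
        ← Finset.sum_sdiff (Finset.singleton_subset_iff.2 hl), Finset.sum_singleton]
      ring
    have := ih s' W' ?_ ?_ ?_ ?_
    · rw [hU, hS] at this
      exact this
    · intro j hj
      by_cases hjl : j = l
      · subst hjl
        rw [hW'l]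
        linarith
      · rw [hW'j j hjl]
        exact h1 j (Finset.mem_insert_of_mem hj)
    · have key : ∀ j ∈ K, j ≠ l → Disjoint (s l ∪ s k) (s j) := by
        intro j hj hjl
        rw [Finset.disjoint_union_left]
        exact ⟨h2 l (Finset.mem_insert_of_mem hl) j (Finset.mem_insert_of_mem hj) (Ne.symm hjl),
          h2 k (Finset.mem_insert_self _ _) j (Finset.mem_insert_of_mem hj)
            (fun h => hk (h ▸ hj))⟩
      intro i hi j hj hij
      by_cases hil : i = l
      · subst hil
        rw [hs'l, hs'j j (Ne.symm hij)]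
        exact key j hj (Ne.symm hij)
      · by_cases hjl : j = l
        · subst hjl
          rw [hs'l, hs'j i hil]
          exact (key i hi hil).symm
        · rw [hs'j i hil, hs'j j hjl]
          exact h2 i (Finset.mem_insert_of_mem hi) j (Finset.mem_insert_of_mem hj) hij
    · intro j hj hne z hz
      by_cases hjl : j = l
      · subst hjl
        rw [hs'l, hW'l] at *
        have hcard : ((s j ∪ s k).card : ℝ) = (s j).card + (s k).card := by
          rw [Finset.card_union_of_disjoint hd]
          push_cast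
          ring
        rcases (s k).eq_empty_or_nonempty with hsk | hsk
        · rw [hsk, Finset.union_empty] at hne ⊢
          obtain ⟨ν, a1, a2⟩ := h3 j (Finset.mem_insert_of_mem hj) hne z hz
          exact ⟨ν, a1, by linarith⟩
        · obtain ⟨z0, hz0k, hz0l⟩ := hkl
          obtain ⟨ν, a1, a2⟩ := h3 k (Finset.mem_insert_self _ _) hsk z0 hz0k
          have hd0 : dist z0 z ≤ w j := hV j z0 hz0l z hz
          rcases (s j).eq_empty_or_nonempty with hsj | hsj
          · rw [hsj, Finset.empty_union]
            refine ⟨_, RT.move z a1, ?_⟩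
            rw [tot_add, tot_single]
            linarith
          · obtain ⟨ν', b1, b2⟩ := h3 j (Finset.mem_insert_of_mem hj) hsj z hz
            refine ⟨_, RT.join hd b1 (RT.move z a1), ?_⟩
            rw [tot_add, tot_add, tot_single, hcard]
            have := hwδ j
            linarith
      · rw [hs'j j hjl] at hne ⊢
        rw [hW'j j hjl]
        exact h3 j (Finset.mem_insert_of_mem hj) hne z hz
    · rw [hU]
      exact h4

end Pool.Agent.X189.ST
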